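import Mathlib
import Pool.Agent.Helper60.Pack.Defs

set_option autoImplicit false

/-!
MP_be0db5_co, block P3a: separations of a minimal counterexample to Theorem B.
-/

open Finset

namespace Pool.Agent.Helper60.Pack

section comp
variable {V : Type} (G : SimpleGraph V)

/-- the component of `k` in `G` restricted to `s` (as a set of vertices, `k` included) -/
def comp (s : Set V) (k : V) : Set V :=
  {z | Relation.ReflTransGen (fun a b => G.Adj a b ∧ b ∈ s) k z}

variable {G}

theorem mem_comp_self (s : Set V) (k : V) : k ∈ comp G s k := Relation.ReflTransGen.refl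

theorem comp_sub {s : Set V} {k : V} (hk : k ∈ s) : comp G s k ⊆ s := by
  intro z hz
  rcases Relation.ReflTransGen.cases_tail hz with h | ⟨c, _, h⟩
  · rw [h]; exact hk
  · exact h.2

theorem comp_closed {s : Set V} {k a b : V} (ha : a ∈ comp G s k) (hab : G.Adj a b)
    (hb : b ∈ s) : b ∈ comp G s k :=
  Relation.ReflTransGen.tail ha ⟨hab, hb⟩

theorem comp_trans {s : Set V} {k a b : V} (ha : a ∈ comp G s k) (hb : b ∈ comp G s a) :
    b ∈ comp G s k := Relation.ReflTransGen.trans ha hb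

theorem comp_symm {s : Set V} {k a : V} (hk : k ∈ s) (ha : a ∈ comp G s k) :
    k ∈ comp G s a := by
  induction ha with
  | refl => exact mem_comp_self s k
  | @tail b c hb hbc ih =>
    have h1 : b ∈ comp G s c :=
      comp_closed (mem_comp_self s c) hbc.1.symm (comp_sub hk hb)
    exact comp_trans h1 ih

theorem comp_conn (s : Set V) (k : V) : (G.induce (comp G s k)).Connected := by
  have key : ∀ z (hz : z ∈ comp G s k),
      (G.induce (comp G s k)).Reachable ⟨k, mem_comp_self s k⟩ ⟨z, hz⟩ := by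
    intro z hz
    have hz' := hz
    change Relation.ReflTransGen (fun a b => G.Adj a b ∧ b ∈ s) k z at hz'
    induction hz' with
    | refl => exact SimpleGraph.Reachable.refl _
    | @tail b c hb hbc ih =>
      have hb' : b ∈ comp G s k := hb
      refine (ih hb').trans (SimpleGraph.Adj.reachable ?_)
      exact hbc.1
  have : Nonempty (comp G s k) := ⟨⟨k, mem_comp_self s k⟩⟩
  refine ⟨fun a b => ?_⟩
  exact (key a.1 a.2).symm.trans (key b.1 b.2)

/-- a set closed under adjacency inside `s` which meets `s` contains `s`, if `s` is connected -/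
theorem sub_of_closed {s : Set V} (hs : (G.induce s).Preconnected) {K : Set V}
    (hcl : ∀ a ∈ K, a ∈ s → ∀ b ∈ s, G.Adj a b → b ∈ K) {a b : V} (ha : a ∈ s) (haK : a ∈ K)
    (hb : b ∈ s) : b ∈ K := by
  obtain ⟨w⟩ := hs ⟨a, ha⟩ ⟨b, hb⟩
  have : ∀ (p q : s) (_ : (G.induce s).Walk p q), (p : V) ∈ K → (q : V) ∈ K := by
    intro p q w
    induction w with
    | nil => exact id
    | @cons p r q h w ih =>
      intro hp
      exact ih (hcl p.1 hp p.2 r.1 r.2 h)
  exact this _ _ w haK

theorem conn_single (a : V) : (G.induce ({a} : Set V)).Connected := by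
  have : Nonempty ({a} : Set V) := ⟨⟨a, rfl⟩⟩
  refine ⟨fun p q => ?_⟩
  have : p = q := Subtype.ext ((show p.1 = a from p.2).trans (show q.1 = a from q.2).symm)
  rw [this]

theorem conn_pair {a b : V} (h : G.Adj a b) : (G.induce ({a, b} : Set V)).Connected := by
  have : Nonempty ({a, b} : Set V) := ⟨⟨a, by simp⟩⟩
  have hab : (G.induce ({a, b} : Set V)).Reachable ⟨a, by simp⟩ ⟨b, by simp⟩ :=
    SimpleGraph.Adj.reachable h
  refine ⟨fun p q => ?_⟩
  obtain ⟨p, hp⟩ := p
  obtain ⟨q, hq⟩ := q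
  rcases hp with rfl | hp
  · rcases hq with rfl | hq
    · exact SimpleGraph.Reachable.refl _
    · have : q = b := hq
      subst this; exact hab
  · have : p = b := hp
    subst this
    rcases hq with rfl | hq
    · exact hab.symm
    · have : q = p := hq
      subst this
      exact SimpleGraph.Reachable.refl _

theorem conn_union {A B : Set V} (hA : (G.induce A).Connected) (hB : (G.induce B).Connected)
    {a b : V} (ha : a ∈ A) (hb : b ∈ B) (hab : G.Adj a b) : (G.induce (A ∪ B)).Connected := by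
  have e1 : ∀ (p q : A), (G.induce (A ∪ B)).Reachable ⟨p.1, Or.inl p.2⟩ ⟨q.1, Or.inl q.2⟩ := by
    intro p q
    have := (hA.preconnected p q).map
      (SimpleGraph.induceHomOfLE G (Set.subset_union_left (s := A) (t := B))).toHom
    exact this
  have e2 : ∀ (p q : B), (G.induce (A ∪ B)).Reachable ⟨p.1, Or.inr p.2⟩ ⟨q.1, Or.inr q.2⟩ := by
    intro p q
    have := (hB.preconnected p q).map
      (SimpleGraph.induceHomOfLE G (Set.subset_union_right (s := A) (t := B))).toHom
    exact this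
  have e3 : (G.induce (A ∪ B)).Reachable ⟨a, Or.inl ha⟩ ⟨b, Or.inr hb⟩ :=
    SimpleGraph.Adj.reachable hab
  have : Nonempty (A ∪ B : Set V) := ⟨⟨a, Or.inl ha⟩⟩
  refine ⟨fun p q => ?_⟩
  have f : ∀ p : (A ∪ B : Set V), (G.induce (A ∪ B)).Reachable ⟨a, Or.inl ha⟩ p := by
    rintro ⟨p, hp | hp⟩
    · exact e1 ⟨a, ha⟩ ⟨p, hp⟩
    · exact e3.trans (e2 ⟨b, hb⟩ ⟨p, hp⟩)
  exact (f p).symm.trans (f q)

theorem fin3_cases : ∀ i j k l : Fin 3, i ≠ j → i ≠ k → j ≠ k → l = i ∨ l = j ∨ l = k := by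
  decide

theorem k33_of (A B : Fin 3 → Set V) (hA : ∀ i, (G.induce (A i)).Connected)
    (hB : ∀ i, (G.induce (B i)).Connected) (hAA : ∀ i j, i ≠ j → Disjoint (A i) (A j))
    (hBB : ∀ i j, i ≠ j → Disjoint (B i) (B j)) (hAB : ∀ i j, Disjoint (A i) (B j))
    (hadj : ∀ i j, ∃ a ∈ A i, ∃ b ∈ B j, G.Adj a b) : ¬ NoK33 G := by
  intro h
  apply h
  refine ⟨fun q => if q.1 then A q.2 else B q.2, ?_, ?_, ?_⟩
  · rintro ⟨b, i⟩
    cases b
    · exact hB i
    · exact hA i
  · rintro ⟨b, i⟩ ⟨c, j⟩ hne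
    cases b <;> cases c
    · exact hBB i j (fun h => hne (by rw [h]))
    · exact (hAB j i).symm
    · exact hAB i j
    · exact hAA i j (fun h => hne (by rw [h]))
  · rintro ⟨b, i⟩ ⟨c, j⟩ hne
    cases b <;> cases c
    · exact absurd rfl hne
    · obtain ⟨a, ha, b, hb, hab⟩ := hadj j i
      exact ⟨b, hb, a, ha, hab.symm⟩
    · exact hadj i j
    · exact absurd rfl hne

theorem k5_of (A : Fin 5 → Set V) (hA : ∀ i, (G.induce (A i)).Connected)
    (hAA : ∀ i j, i < j → Disjoint (A i) (A j))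
    (hadj : ∀ i j, i < j → ∃ a ∈ A i, ∃ b ∈ A j, G.Adj a b) : ¬ NoK5 G := by
  intro h
  apply h
  refine ⟨A, hA, ?_, ?_⟩
  · intro i j hij
    rcases lt_or_gt_of_ne hij with h | h
    · exact hAA i j h
    · exact (hAA j i h).symm
  · intro i j hij
    rcases lt_or_gt_of_ne hij with h | h
    · exact hadj i j h
    · obtain ⟨a, ha, b, hb, hab⟩ := hadj j i h
      exact ⟨b, hb, a, ha, hab.symm⟩

end comp

section P3a
variable {V : Type} [Fintype V] [DecidableEq V] (G : SimpleGraph V) [DecidableRel G.Adj]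

/-- minimality inside `V`: every proper vertex subset with at least 3 elements is sparse -/
def MinSub : Prop := ∀ S : Finset V, 3 ≤ S.card → S ≠ univ → dIn G S + 8 ≤ 4 * S.card

theorem sep_count (hd : 4 * Fintype.card V ≤ dIn G univ + 6) (hmin : MinSub G)
    (A B : Finset V) (hAB : A ∪ B = univ) (hno : ∀ a ∈ A \ B, ∀ b ∈ B \ A, ¬ G.Adj a b)
    (hA : (A \ B).Nonempty) (hB : (B \ A).Nonempty) (hA3 : 3 ≤ A.card) (hB3 : 3 ≤ B.card) :
    dIn G (A ∩ B) + 10 ≤ 4 * (A ∩ B).card := by
  have hAne : A ≠ univ := by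
    rintro rfl
    obtain ⟨b, hb⟩ := hB
    simp at hb
  have hBne : B ≠ univ := by
    rintro rfl
    obtain ⟨b, hb⟩ := hA
    simp at hb
  have h1 := hmin A hA3 hAne
  have h2 := hmin B hB3 hBne
  have h3 : A.card + B.card = Fintype.card V + (A ∩ B).card := by
    rw [← card_union_add_card_inter, hAB, card_univ]
  have h4 : dIn G univ + dIn G (A ∩ B) = dIn G A + dIn G B := by
    unfold dIn
    have e1 : ((univ ×ˢ univ : Finset (V × V)).filter (fun p => G.Adj p.1 p.2)) =
        (A ×ˢ A).filter (fun p => G.Adj p.1 p.2) ∪ (B ×ˢ B).filter (fun p => G.Adj p.1 p.2) := by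
      ext ⟨a, b⟩
      simp only [mem_filter, mem_product, mem_univ, true_and, mem_union]
      constructor
      · intro h
        have ha : a ∈ A ∪ B := hAB ▸ mem_univ a
        have hb : b ∈ A ∪ B := hAB ▸ mem_univ b
        rw [mem_union] at ha hb
        have k1 : ¬ (a ∈ A \ B ∧ b ∈ B \ A) := fun h' => hno a h'.1 b h'.2 h
        have k2 : ¬ (b ∈ A \ B ∧ a ∈ B \ A) := fun h' => hno b h'.1 a h'.2 h.symm
        rw [mem_sdiff, mem_sdiff] at k1 k2
        tauto
      · rintro (⟨_, h⟩ | ⟨_, h⟩) <;> exact h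
    have e2 : ((A ∩ B) ×ˢ (A ∩ B)).filter (fun p => G.Adj p.1 p.2) =
        (A ×ˢ A).filter (fun p => G.Adj p.1 p.2) ∩ (B ×ˢ B).filter (fun p => G.Adj p.1 p.2) := by
      ext ⟨a, b⟩
      simp only [mem_filter, mem_product, mem_inter]
      tauto
    rw [e1, e2, card_union_add_card_inter]
  omega

/-- four-cycles do not separate -/
theorem four_nonsep (hd : 4 * Fintype.card V ≤ dIn G univ + 6) (hmin : MinSub G)
    (a b c d : V) (hab : G.Adj a b) (hbc : G.Adj b c) (hcd : G.Adj c d) (hda : G.Adj d a)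
    (hac : a ≠ c) (hbd : b ≠ d) :
    (G.induce {z : V | z ≠ a ∧ z ≠ b ∧ z ≠ c ∧ z ≠ d}).Preconnected := by
  classical
  set s : Set V := {z : V | z ≠ a ∧ z ≠ b ∧ z ≠ c ∧ z ≠ d} with hs
  by_contra hcon
  have : ∃ x y : s, ¬ (G.induce s).Reachable x y := by
    by_contra h
    push Not at h
    exact hcon fun x y => h x y
  obtain ⟨x, y, hxy⟩ := this
  let C : Finset V := {a, b, c, d}
  let X : Finset V := univ.filter (fun z => ∃ h : z ∈ s, (G.induce s).Reachable x ⟨z, h⟩)
  let Y : Finset V := univ.filter (fun z => ∃ h : z ∈ s, ¬ (G.induce s).Reachable x ⟨z, h⟩)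
  have hC4 : C.card = 4 := by
    have h1 := hab.ne
    have h2 := hbc.ne
    have h3 := hcd.ne
    have h4 := hda.ne
    have h5 : a ≠ d := h4.symm
    simp only [C]
    rw [card_insert_of_notMem, card_insert_of_notMem, card_insert_of_notMem, card_singleton]
    · simp [h3]
    · simp [h2, hbd]
    · simp [h1, hac, h5]
  have hCs : ∀ z, z ∈ C ↔ z ∉ s := by
    intro z
    simp only [C, hs, mem_insert, mem_singleton]
    change _ ↔ ¬ (z ≠ a ∧ z ≠ b ∧ z ≠ c ∧ z ≠ d)
    tauto
  have hX : ∀ z, z ∈ X ↔ ∃ h : z ∈ s, (G.induce s).Reachable x ⟨z, h⟩ := by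
    intro z; simp [X]
  have hY : ∀ z, z ∈ Y ↔ ∃ h : z ∈ s, ¬ (G.induce s).Reachable x ⟨z, h⟩ := by
    intro z; simp [Y]
  have hXY : ∀ z, z ∈ X → z ∉ Y := by
    intro z h1 h2
    obtain ⟨_, h1⟩ := (hX z).1 h1
    obtain ⟨_, h2⟩ := (hY z).1 h2
    exact h2 h1
  have hXC : ∀ z, z ∈ X → z ∉ C := by
    intro z h1 h2
    obtain ⟨h, _⟩ := (hX z).1 h1
    exact (hCs z).1 h2 h
  have hYC : ∀ z, z ∈ Y → z ∉ C := by
    intro z h1 h2
    obtain ⟨h, _⟩ := (hY z).1 h1
    exact (hCs z).1 h2 h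
  have hcov : ∀ z, z ∈ X ∨ z ∈ Y ∨ z ∈ C := by
    intro z
    by_cases h : z ∈ s
    · by_cases h' : (G.induce s).Reachable x ⟨z, h⟩
      · exact Or.inl ((hX z).2 ⟨h, h'⟩)
      · exact Or.inr (Or.inl ((hY z).2 ⟨h, h'⟩))
    · exact Or.inr (Or.inr ((hCs z).2 h))
  have hxX : x.1 ∈ X := (hX _).2 ⟨x.2, SimpleGraph.Reachable.refl _⟩
  have hyY : y.1 ∈ Y := (hY _).2 ⟨y.2, hxy⟩
  have hAB : (X ∪ C) ∪ (Y ∪ C) = univ := by
    ext z
    simp only [mem_union, mem_univ, iff_true]
    rcases hcov z with h | h | h <;> tauto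
  have hint : (X ∪ C) ∩ (Y ∪ C) = C := by
    ext z
    simp only [mem_union, mem_inter]
    constructor
    · rintro ⟨h1 | h1, h2 | h2⟩
      · exact absurd h2 (hXY z h1)
      · exact h2
      · exact h1
      · exact h1
    · intro h
      exact ⟨Or.inr h, Or.inr h⟩
  have key := sep_count G hd hmin (X ∪ C) (Y ∪ C) hAB ?_ ?_ ?_ ?_ ?_
  · rw [hint, hC4] at key
    have h8 : 8 ≤ dIn G C := by
      unfold dIn
      have hsub : ({(a, b), (b, a), (b, c), (c, b), (c, d), (d, c), (d, a), (a, d)} :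
          Finset (V × V)) ⊆ (C ×ˢ C).filter (fun p => G.Adj p.1 p.2) := by
        intro p hp
        simp only [mem_insert, mem_singleton] at hp
        simp only [mem_filter, mem_product, C, mem_insert, mem_singleton]
        rcases hp with rfl | rfl | rfl | rfl | rfl | rfl | rfl | rfl <;>
          simp [hab, hbc, hcd, hda, hab.symm, hbc.symm, hcd.symm, hda.symm]
      refine le_trans (le_of_eq ?_) (card_le_card hsub)
      have h1 := hab.ne
      have h2 := hbc.ne
      have h3 := hcd.ne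
      have h4 := hda.ne
      have h1' := hab.ne.symm
      have h2' := hbc.ne.symm
      have h3' := hcd.ne.symm
      have h4' := hda.ne.symm
      have hac' := hac.symm
      have hbd' := hbd.symm
      repeat rw [card_insert_of_notMem]
      · simp
      all_goals simp [*]
    omega
  · intro p hp q hq hpq
    simp only [mem_sdiff, mem_union, not_or] at hp hq
    obtain ⟨hp1, hp2, hp3⟩ := hp
    obtain ⟨hq1, hq2, hq3⟩ := hq
    have hpX : p ∈ X := by tauto
    have hqY : q ∈ Y := by tauto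
    obtain ⟨h1, h2⟩ := (hX p).1 hpX
    obtain ⟨h3, h4⟩ := (hY q).1 hqY
    exact h4 (h2.trans (SimpleGraph.Adj.reachable hpq))
  · refine ⟨x.1, ?_⟩
    simp only [mem_sdiff, mem_union, not_or]
    exact ⟨Or.inl hxX, hXY _ hxX, hXC _ hxX⟩
  · refine ⟨y.1, ?_⟩
    simp only [mem_sdiff, mem_union, not_or]
    exact ⟨Or.inl hyY, fun h => hXY _ h hyY, hYC _ hyY⟩
  · calc 3 ≤ C.card := by omega
      _ ≤ _ := card_le_card subset_union_right
  · calc 3 ≤ C.card := by omega
      _ ≤ _ := card_le_card subset_union_right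

/-- no two vertices have three common neighbours -/
theorem common_le_two (hd : 4 * Fintype.card V ≤ dIn G univ + 6) (hmin : MinSub G)
    (h3 : G.CliqueFree 3) (hK : NoK33 G) (hn : 6 ≤ Fintype.card V)
    (u v x p q : V) (huv : u ≠ v) (hxp : x ≠ p) (hxq : x ≠ q) (hpq : p ≠ q)
    (hux : G.Adj u x) (hup : G.Adj u p) (huq : G.Adj u q)
    (hvx : G.Adj v x) (hvp : G.Adj v p) (hvq : G.Adj v q) : False := by
  classical
  set s : Set V := {z : V | z ≠ u ∧ z ≠ v ∧ z ≠ x ∧ z ≠ p ∧ z ≠ q} with hs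
  -- a sixth vertex
  obtain ⟨k, hk⟩ : ∃ k, k ∈ s := by
    by_contra hcon
    push Not at hcon
    have h5 : ({u, v, x, p, q} : Finset V) = univ := by
      ext z
      simp only [mem_insert, mem_singleton, mem_univ, iff_true]
      have h' := hcon z
      change ¬ (z ≠ u ∧ z ≠ v ∧ z ≠ x ∧ z ≠ p ∧ z ≠ q) at h'
      tauto
    have h6 : ({u, v, x, p, q} : Finset V).card ≤ 5 := by
      refine (card_insert_le _ _).trans ?_
      refine Nat.succ_le_succ ((card_insert_le _ _).trans ?_)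
      refine Nat.succ_le_succ ((card_insert_le _ _).trans ?_)
      refine Nat.succ_le_succ ((card_insert_le _ _).trans ?_)
      simp
    rw [h5, card_univ] at h6
    omega
  -- the component of `k` touches every common neighbour
  have touch : ∀ a b c : V, a ≠ b → a ≠ c → b ≠ c → G.Adj u a → G.Adj u b → G.Adj u c →
      G.Adj v a → G.Adj v b → G.Adj v c →
      (∀ z, z ∈ s ↔ (z ≠ u ∧ z ≠ v ∧ z ≠ a ∧ z ≠ b ∧ z ≠ c)) →
      ∃ z ∈ comp G s k, G.Adj z c := by
    intro a b c hab hac hbc hua hub huc hva hvb hvc hz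
    by_contra hcon
    push Not at hcon
    have hpc := four_nonsep G hd hmin u a v b hua hva.symm hvb hub.symm huv hab
    have hk' := (hz k).1 hk
    have hc : c ∈ comp G s k := by
      refine sub_of_closed hpc (K := comp G s k) ?_ (a := k) (b := c) ?_ (mem_comp_self s k) ?_
      · rintro z hz1 - w hw hzw
        by_cases hwc : w = c
        · subst hwc
          exact absurd hzw (hcon z hz1)
        · refine comp_closed hz1 hzw ((hz w).2 ⟨hw.1, hw.2.2.1, hw.2.1, hw.2.2.2, hwc⟩)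
      · exact ⟨hk'.1, hk'.2.2.1, hk'.2.1, hk'.2.2.2.1⟩
      · exact ⟨huc.ne.symm, hac.symm, hvc.ne.symm, hbc.symm⟩
    exact ((hz c).1 (comp_sub hk hc)).2.2.2.2 rfl
  obtain ⟨zx, hzx, hzx'⟩ := touch p q x hpq hxp.symm hxq.symm hup huq hux hvp hvq hvx
    (fun z => by change (z ≠ u ∧ z ≠ v ∧ z ≠ x ∧ z ≠ p ∧ z ≠ q) ↔ _; tauto)
  obtain ⟨zp, hzp, hzp'⟩ := touch x q p hxq hxp hpq.symm hux huq hup hvx hvq hvp
    (fun z => by change (z ≠ u ∧ z ≠ v ∧ z ≠ x ∧ z ≠ p ∧ z ≠ q) ↔ _; tauto)
  obtain ⟨zq, hzq, hzq'⟩ := touch x p q hxp hxq hpq hux hup huq hvx hvp hvq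
    (fun z => by change (z ≠ u ∧ z ≠ v ∧ z ≠ x ∧ z ≠ p ∧ z ≠ q) ↔ _; tauto)
  have hKs : ∀ z ∈ comp G s k, z ≠ u ∧ z ≠ v ∧ z ≠ x ∧ z ≠ p ∧ z ≠ q :=
    fun z hz => comp_sub hk hz
  refine k33_of (G := G) ![{u}, {v}, comp G s k] ![{x}, {p}, {q}] ?_ ?_ ?_ ?_ ?_ ?_ hK
  · intro i
    fin_cases i
    · exact conn_single u
    · exact conn_single v
    · exact comp_conn s k
  · intro i
    fin_cases i
    · exact conn_single x
    · exact conn_single p
    · exact conn_single q
  · have d1 : Disjoint ({u} : Set V) {v} := Set.disjoint_singleton.2 huv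
    have d2 : Disjoint ({u} : Set V) (comp G s k) :=
      Set.disjoint_singleton_left.2 (fun h => (hKs u h).1 rfl)
    have d3 : Disjoint ({v} : Set V) (comp G s k) :=
      Set.disjoint_singleton_left.2 (fun h => (hKs v h).2.1 rfl)
    intro i j hij
    fin_cases i <;> fin_cases j
    · exact absurd rfl hij
    · exact d1
    · exact d2
    · exact d1.symm
    · exact absurd rfl hij
    · exact d3
    · exact d2.symm
    · exact d3.symm
    · exact absurd rfl hij
  · have d1 : Disjoint ({x} : Set V) {p} := Set.disjoint_singleton.2 hxp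
    have d2 : Disjoint ({x} : Set V) {q} := Set.disjoint_singleton.2 hxq
    have d3 : Disjoint ({p} : Set V) {q} := Set.disjoint_singleton.2 hpq
    intro i j hij
    fin_cases i <;> fin_cases j
    · exact absurd rfl hij
    · exact d1
    · exact d2
    · exact d1.symm
    · exact absurd rfl hij
    · exact d3
    · exact d2.symm
    · exact d3.symm
    · exact absurd rfl hij
  · intro i j
    fin_cases i <;> fin_cases j
    · exact Set.disjoint_singleton.2 hux.ne
    · exact Set.disjoint_singleton.2 hup.ne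
    · exact Set.disjoint_singleton.2 huq.ne
    · exact Set.disjoint_singleton.2 hvx.ne
    · exact Set.disjoint_singleton.2 hvp.ne
    · exact Set.disjoint_singleton.2 hvq.ne
    · exact Set.disjoint_singleton_right.2 (fun h => (hKs x h).2.2.1 rfl)
    · exact Set.disjoint_singleton_right.2 (fun h => (hKs p h).2.2.2.1 rfl)
    · exact Set.disjoint_singleton_right.2 (fun h => (hKs q h).2.2.2.2 rfl)
  · intro i j
    fin_cases i <;> fin_cases j
    · exact ⟨u, rfl, x, rfl, hux⟩
    · exact ⟨u, rfl, p, rfl, hup⟩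
    · exact ⟨u, rfl, q, rfl, huq⟩
    · exact ⟨v, rfl, x, rfl, hvx⟩
    · exact ⟨v, rfl, p, rfl, hvp⟩
    · exact ⟨v, rfl, q, rfl, hvq⟩
    · exact ⟨zx, hzx, x, rfl, hzx'⟩
    · exact ⟨zp, hzp, p, rfl, hzp'⟩
    · exact ⟨zq, hzq, q, rfl, hzq'⟩

/-- no edge `uv` lies in three four-cycles `u xᵢ yᵢ v` -/
theorem opp_le_two (hd : 4 * Fintype.card V ≤ dIn G univ + 6) (hmin : MinSub G)
    (h3 : G.CliqueFree 3) (hP : Planar G) (hn : 6 ≤ Fintype.card V)
    (u v : V) (huv : G.Adj u v) (x y : Fin 3 → V)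
    (hinj : ∀ i j, i ≠ j → (x i, y i) ≠ (x j, y j))
    (hx : ∀ i, G.Adj u (x i)) (hxv : ∀ i, x i ≠ v) (hy : ∀ i, G.Adj v (y i)) (hyu : ∀ i, y i ≠ u)
    (hxy : ∀ i, G.Adj (x i) (y i)) : False := by
  classical
  obtain ⟨hK5, hK33⟩ := hP
  have tri : ∀ a b c : V, G.Adj a b → G.Adj a c → G.Adj b c → False := fun a b c hab hac hbc =>
    h3 {a, b, c} (SimpleGraph.is3Clique_iff.2 ⟨a, b, c, hab, hac, hbc, rfl⟩)
  have C := common_le_two G hd hmin h3 hK33 hn
  -- the `x i` are distinct, the `y i` are distinct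
  have xinj : ∀ i j, i ≠ j → x i ≠ x j := by
    intro i j hij h
    have hyy : y i ≠ y j := fun h' => hinj i j hij (by rw [h, h'])
    exact C (x i) v u (y i) (y j) (hxv i) (hyu i).symm (hyu j).symm hyy (hx i).symm (hxy i)
      (h ▸ hxy j) huv.symm (hy i) (hy j)
  have yinj : ∀ i j, i ≠ j → y i ≠ y j := by
    intro i j hij h
    have hxx : x i ≠ x j := xinj i j hij
    exact C (y i) u v (x i) (x j) (hyu i) (hxv i).symm (hxv j).symm hxx (hy i).symm (hxy i).symm
      (h ▸ (hxy j).symm) huv (hx i) (hx j)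
  have xney : ∀ i j, x i ≠ y j := fun i j h =>
    tri u v (x i) huv (hx i) (h ▸ hy j)
  -- no edges between pages
  have exx : ∀ i j, ¬ G.Adj (x i) (x j) := fun i j h => tri u (x i) (x j) (hx i) (hx j) h
  have eyy : ∀ i j, ¬ G.Adj (y i) (y j) := fun i j h => tri v (y i) (y j) (hy i) (hy j) h
  have exy : ∀ i j, i ≠ j → ¬ G.Adj (x i) (y j) := fun i j hij h =>
    C (x i) v u (y i) (y j) (hxv i) (hyu i).symm (hyu j).symm (yinj i j hij) (hx i).symm (hxy i)
      h huv.symm (hy i) (hy j)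
  let P : Fin 3 → Set V := fun i => {x i, y i}
  have hPP : ∀ i j, i ≠ j → ∀ a ∈ P i, ∀ b ∈ P j, ¬ G.Adj a b := by
    rintro i j hij a (rfl | rfl) b (rfl | rfl)
    · exact exx i j
    · exact exy i j hij
    · exact fun h => exy j i hij.symm h.symm
    · exact eyy i j
  have hPd : ∀ i j, i ≠ j → Disjoint (P i) (P j) := by
    intro i j hij
    rw [Set.disjoint_left]
    rintro a (rfl | rfl) (h | h)
    · exact xinj i j hij h
    · exact xney i j h
    · exact xney j i h.symm
    · exact yinj i j hij h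
  have hPc : ∀ i, (G.induce (P i)).Connected := fun i => conn_pair (hxy i)
  let s : Set V := {z : V | z ≠ u ∧ z ≠ v ∧ ∀ i, z ∉ P i}
  have huP : ∀ i, u ∉ P i := by
    rintro i (h | h)
    · exact (hx i).ne h
    · exact hyu i h.symm
  have hvP : ∀ i, v ∉ P i := by
    rintro i (h | h)
    · exact hxv i h.symm
    · exact (hy i).ne h
  let T : V → Fin 3 → Prop := fun k i => ∃ a ∈ comp G s k, ∃ b ∈ P i, G.Adj a b
  -- no component touches all pages
  have hno : ∀ k ∈ s, ¬ (∀ i, T k i) := by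
    intro k hk hT
    have hKs : ∀ z ∈ comp G s k, z ≠ u ∧ z ≠ v ∧ ∀ i, z ∉ P i := fun z hz => comp_sub hk hz
    refine k33_of (G := G) ![{u}, {v}, comp G s k] P ?_ hPc ?_ hPd ?_ ?_ hK33
    · intro i
      fin_cases i
      · exact conn_single u
      · exact conn_single v
      · exact comp_conn s k
    · have d1 : Disjoint ({u} : Set V) {v} := Set.disjoint_singleton.2 huv.ne
      have d2 : Disjoint ({u} : Set V) (comp G s k) :=
        Set.disjoint_singleton_left.2 (fun h => (hKs u h).1 rfl)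
      have d3 : Disjoint ({v} : Set V) (comp G s k) :=
        Set.disjoint_singleton_left.2 (fun h => (hKs v h).2.1 rfl)
      intro i j hij
      fin_cases i <;> fin_cases j
      · exact absurd rfl hij
      · exact d1
      · exact d2
      · exact d1.symm
      · exact absurd rfl hij
      · exact d3
      · exact d2.symm
      · exact d3.symm
      · exact absurd rfl hij
    · intro i j
      fin_cases i
      · exact Set.disjoint_singleton_left.2 (huP j)
      · exact Set.disjoint_singleton_left.2 (hvP j)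
      · exact Set.disjoint_left.2 (fun z hz => (hKs z hz).2.2 j)
    · intro i j
      fin_cases i
      · exact ⟨u, rfl, x j, Or.inl rfl, hx j⟩
      · exact ⟨v, rfl, y j, Or.inr rfl, hy j⟩
      · exact hT j
  -- every two pages are joined by a component
  have bridge : ∀ i j k : Fin 3, i ≠ j → i ≠ k → j ≠ k → ∃ z ∈ s, T z i ∧ T z j := by
    intro i j k hij hik hjk
    by_contra hcon
    push Not at hcon
    have hpc := four_nonsep G hd hmin u (x k) (y k) v (hx k) (hxy k) (hy k).symm huv.symm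
      (hyu k).symm (hxv k)
    have hcase : ∀ z : V, z ≠ u ∧ z ≠ x k ∧ z ≠ y k ∧ z ≠ v → z ∈ P i ∨ z ∈ P j ∨ z ∈ s := by
      rintro z ⟨h1, h2, h3, h4⟩
      by_cases hzi : z ∈ P i
      · exact Or.inl hzi
      · by_cases hzj : z ∈ P j
        · exact Or.inr (Or.inl hzj)
        · refine Or.inr (Or.inr ⟨h1, h4, ?_⟩)
          intro l
          have hl : l = i ∨ l = j ∨ l = k := fin3_cases i j k l hij hik hjk
          rcases hl with rfl | rfl | rfl
          · exact hzi
          · exact hzj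
          · rintro (h | h)
            · exact h2 h
            · exact h3 h
    have hsP : ∀ z ∈ s, ∀ l, z ∉ P l := fun z hz => hz.2.2
    have hU := sub_of_closed hpc (K := {z | z ∈ P i ∨ (z ∈ s ∧ T z i)}) ?_
      (a := x i) (b := x j) ?_ ?_ ?_
    · rcases hU with h | h
      · rcases h with h | h
        · exact xinj j i hij.symm h
        · exact xney j i h
      · exact h.1.2.2 j (Or.inl rfl)
    · rintro a ha - b hb hab
      rcases hcase b hb with hb' | hb' | hb'
      · exact Or.inl hb'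
      · exfalso
        rcases ha with ha | ⟨ha, hTa⟩
        · exact hPP i j hij a ha b hb' hab
        · exact hcon a ha hTa ⟨a, mem_comp_self s a, b, hb', hab⟩
      · refine Or.inr ⟨hb', ?_⟩
        rcases ha with ha | ⟨ha, hTa⟩
        · exact ⟨b, mem_comp_self s b, a, ha, hab.symm⟩
        · obtain ⟨c, hc, d, hd', hcd⟩ := hTa
          refine ⟨c, comp_trans (comp_closed (mem_comp_self s b) hab.symm ha) hc, d, hd', hcd⟩
    · exact ⟨(hx i).ne.symm, xinj i k hik, xney i k, hxv i⟩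
    · exact Or.inl (Or.inl rfl)
    · exact ⟨(hx j).ne.symm, xinj j k hjk, xney j k, hxv j⟩
  obtain ⟨a, ha, ha0, ha1⟩ := bridge 0 1 2 (by decide) (by decide) (by decide)
  obtain ⟨b, hb, hb1, hb2⟩ := bridge 1 2 0 (by decide) (by decide) (by decide)
  obtain ⟨c, hc, hc2, hc0⟩ := bridge 2 0 1 (by decide) (by decide) (by decide)
  have ha2 : ¬ T a 2 := fun h => hno a ha (fun i => by fin_cases i; exacts [ha0, ha1, h])
  have hb0 : ¬ T b 0 := fun h => hno b hb (fun i => by fin_cases i; exacts [h, hb1, hb2])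
  have hc1 : ¬ T c 1 := fun h => hno c hc (fun i => by fin_cases i; exacts [hc0, h, hc2])
  -- components of different type are disjoint
  have hdis : ∀ p q : V, p ∈ s → q ∈ s → ∀ l, T p l → ¬ T q l →
      Disjoint (comp G s p) (comp G s q) := by
    intro p q hp hq l hTp hTq
    rw [Set.disjoint_left]
    intro z hzp hzq
    apply hTq
    obtain ⟨c, hc, d, hd', hcd⟩ := hTp
    exact ⟨c, comp_trans (comp_trans hzq (comp_symm hp hzp)) hc, d, hd', hcd⟩
  have dab : Disjoint (comp G s a) (comp G s b) := hdis a b ha hb 0 ha0 hb0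
  have dbc : Disjoint (comp G s b) (comp G s c) := hdis b c hb hc 1 hb1 hc1
  have dca : Disjoint (comp G s c) (comp G s a) := hdis c a hc ha 2 hc2 ha2
  have hsub : ∀ k ∈ s, ∀ z ∈ comp G s k, z ≠ u ∧ z ≠ v ∧ ∀ i, z ∉ P i :=
    fun k hk z hz => comp_sub hk hz
  have dP : ∀ k ∈ s, ∀ i, Disjoint (comp G s k) (P i) := fun k hk i =>
    Set.disjoint_left.2 (fun z hz => (hsub k hk z hz).2.2 i)
  have uD : ∀ k ∈ s, ∀ i, Disjoint ({u} : Set V) (P i ∪ comp G s k) := by
    intro k hk i
    rw [Set.disjoint_singleton_left]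
    rintro (h | h)
    · exact huP i h
    · exact (hsub k hk u h).1 rfl
  have vD : ∀ k ∈ s, ∀ i, Disjoint ({v} : Set V) (P i ∪ comp G s k) := by
    intro k hk i
    rw [Set.disjoint_singleton_left]
    rintro (h | h)
    · exact hvP i h
    · exact (hsub k hk v h).2.1 rfl
  have PD : ∀ k ∈ s, ∀ l ∈ s, ∀ i j, i ≠ j → Disjoint (comp G s k) (comp G s l) →
      Disjoint (P i ∪ comp G s k) (P j ∪ comp G s l) := by
    intro k hk l hl i j hij hkl
    rw [Set.disjoint_union_left, Set.disjoint_union_right, Set.disjoint_union_right]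
    exact ⟨⟨hPd i j hij, (dP l hl i).symm⟩, ⟨dP k hk j, hkl⟩⟩
  have hcn : ∀ k i, T k i → (G.induce (P i ∪ comp G s k)).Connected := by
    intro k i hT
    obtain ⟨p, hp, q, hq, hpq⟩ := hT
    exact conn_union (hPc i) (comp_conn s k) hq hp hpq.symm
  -- branch sets: `u`, `v`, `P 0 ∪ a`, `P 1 ∪ b`, `P 2 ∪ c`; `a` touches 0 and 1, `b` 1, 2, `c` 2, 0
  refine k5_of (G := G) ![{u}, {v}, P 0 ∪ comp G s a, P 1 ∪ comp G s b, P 2 ∪ comp G s c]
    ?_ ?_ ?_ hK5
  · intro i
    fin_cases i
    · exact conn_single u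
    · exact conn_single v
    · exact hcn a 0 ha0
    · exact hcn b 1 hb1
    · exact hcn c 2 hc2
  · intro i j hij
    fin_cases i <;> fin_cases j <;> first | exact absurd hij (by decide) | skip
    · exact Set.disjoint_singleton.2 huv.ne
    · exact uD a ha 0
    · exact uD b hb 1
    · exact uD c hc 2
    · exact vD a ha 0
    · exact vD b hb 1
    · exact vD c hc 2
    · exact PD a ha b hb 0 1 (by decide) dab
    · exact PD a ha c hc 0 2 (by decide) dca.symm
    · exact PD b hb c hc 1 2 (by decide) dbc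
  · intro i j hij
    fin_cases i <;> fin_cases j <;> first | exact absurd hij (by decide) | skip
    · exact ⟨u, rfl, v, rfl, huv⟩
    · exact ⟨u, rfl, x 0, Or.inl (Or.inl rfl), hx 0⟩
    · exact ⟨u, rfl, x 1, Or.inl (Or.inl rfl), hx 1⟩
    · exact ⟨u, rfl, x 2, Or.inl (Or.inl rfl), hx 2⟩
    · exact ⟨v, rfl, y 0, Or.inl (Or.inr rfl), hy 0⟩
    · exact ⟨v, rfl, y 1, Or.inl (Or.inr rfl), hy 1⟩
    · exact ⟨v, rfl, y 2, Or.inl (Or.inr rfl), hy 2⟩
    · obtain ⟨p, hp, q, hq, hpq⟩ := ha1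
      exact ⟨p, Or.inr hp, q, Or.inl hq, hpq⟩
    · obtain ⟨p, hp, q, hq, hpq⟩ := hc0
      exact ⟨q, Or.inl hq, p, Or.inr hp, hpq.symm⟩
    · obtain ⟨p, hp, q, hq, hpq⟩ := hb2
      exact ⟨p, Or.inr hp, q, Or.inl hq, hpq⟩

end P3a

end Pool.Agent.Helper60.Pack
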